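import Mathlib
import Pool.Agent.K1H95.EO.Stm

/-! # Project EO, piece KER -/

set_option autoImplicit false

open Cardinal
open Pool.Agent.K1H95.EO

namespace Pool.Agent.K1H80.EO

open Classical in
/-- the equality kernel -/
noncomputable def D (J : Type) (x y : J) : ℚ := if x = y then 1 else 0

theorem Bil_sub {I : Type} (k k' : I → I → ℚ) (a b : I →₀ ℤ) :
    Bil (fun x y => k x y - k' x y) a b = Bil k a b - Bil k' a b := by
  unfold Bil Finsupp.sum
  simp only [mul_sub, Finset.sum_sub_distrib]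

theorem Bil_mul {I : Type} (r : ℚ) (k : I → I → ℚ) (a b : I →₀ ℤ) :
    Bil (fun x y => r * k x y) a b = r * Bil k a b := by
  unfold Bil Finsupp.sum
  simp only [Finset.mul_sum]
  refine Finset.sum_congr rfl fun x _ => Finset.sum_congr rfl fun y _ => ?_
  ring

theorem Bil_sum {I : Type} (s : Finset ℕ) (k : ℕ → I → I → ℚ) (a b : I →₀ ℤ) :
    Bil (fun x y => ∑ n ∈ s, k n x y) a b = ∑ n ∈ s, Bil (k n) a b := by
  classical
  induction s using Finset.induction_on with
  | empty => simp [Bil]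
  | insert n s hn ih =>
    rw [Finset.sum_insert hn, ← ih]
    simp only [Finset.sum_insert hn]
    unfold Bil Finsupp.sum
    simp only [mul_add, Finset.sum_add_distrib]

theorem pre_eq {E : Type} (x y : ℕ → E) (h : x ≠ y) (n : ℕ) : pre n x = pre n y ↔ n ≤ PiNat.firstDiff x y := by
  unfold pre
  rw [PiNat.res_eq_res]
  constructor
  · intro h1
    by_contra h2
    push Not at h2
    exact PiNat.apply_firstDiff_ne h (h1 h2)
  · intro h1 m hm
    exact PiNat.apply_eq_of_lt_firstDiff (hm.trans_le h1)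

/-- truncated kernel -/
noncomputable def KM {E I : Type} (c : I → ℕ → E) (M : ℕ) (x y : I) : ℚ :=
  D _ (pre 0 (c x)) (pre 0 (c y)) - ∑ n ∈ Finset.range M, (1 / 2 : ℚ) ^ (n + 1) * D _ (pre (n + 1) (c x)) (pre (n + 1) (c y))

theorem KM_eq {E I : Type} (c : I → ℕ → E) (M : ℕ) (x y : I) (h : c x ≠ c y) :
    KM c M x y = (1 / 2 : ℚ) ^ (min (PiNat.firstDiff (c x) (c y)) M) := by
  induction M with
  | zero =>
    unfold KM D
    rw [if_pos]
    · simp
    · rfl
  | succ M ih =>
    unfold KM at ih ⊢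
    rw [Finset.sum_range_succ, ← sub_sub, ih]
    unfold D
    by_cases h1 : M + 1 ≤ PiNat.firstDiff (c x) (c y)
    · rw [if_pos ((pre_eq _ _ h _).2 h1), min_eq_right h1, min_eq_right (by omega)]
      ring
    · rw [if_neg (fun h2 => h1 ((pre_eq _ _ h _).1 h2)), min_eq_left (by omega), min_eq_left (by omega)]
      ring

theorem sum_tail (L M : ℕ) : ∑ n ∈ Finset.range M, (if L ≤ n then (1 / 2 : ℚ) ^ (n + 1) else 0) =
    (1 / 2 : ℚ) ^ L - (1 / 2 : ℚ) ^ (max L M) := by
  induction M with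
  | zero => simp
  | succ M ih =>
    rw [Finset.sum_range_succ, ih]
    by_cases h : L ≤ M
    · rw [if_pos h, max_eq_right h, max_eq_right (by omega)]
      ring
    · rw [if_neg h, max_eq_left (by omega), max_eq_left (by omega)]
      ring

/-- **Piece KER.** -/
theorem t_KER (hT : S_TYP) (hB : S_BND) (hS : S_SQ) (hM : S_MD) (hL : S_LEV) : S_KER := by
  intro E I c a b N L j M hc hab h1 h2 h3 hjM ha hb hN1 hN2
  -- types at lower levels
  have hty : ∀ n, n ≤ M → typ c n a = typ c n b := by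
    intro n hn
    have e : ∀ m, typ c m (a - b) = typ c m a - typ c m b := by
      intro m
      unfold typ
      exact map_sub (Finsupp.mapDomain.addMonoidHom (M := ℤ) fun i => pre m (c i)) a b
    have := (hL E I c hc (a - b)).1 n M hn (by rw [e, h1, sub_self])
    rw [e] at this
    exact sub_eq_zero.1 this
  have hLj : L < j := by
    by_contra h
    push Not at h
    exact h3 ((hL E I c hc a).1 j L h h2)
  have hz : ∀ n, n ≤ L → typ c n a = 0 := fun n hn => (hL E I c hc a).1 n L hn h2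
  set q : ℕ → ℚ := fun n => Bil (D (List E)) (typ c n a) (typ c n a) with hq
  have hq0 : ∀ n, n ≤ L → q n = 0 := by
    intro n hn
    simp only [hq]
    rw [hz n hn]
    simp [Bil]
  have hSD := hS (List E) (D (List E)) (fun x => if_pos rfl) (fun x y h => if_neg h)
  have hqn : ∀ n, 0 ≤ q n := fun n => (hSD _).1
  have hqj : 1 ≤ q j := (hSD _).2.1 h3
  have hqN : ∀ n, q n ≤ (N : ℚ) ^ 2 := by
    intro n
    refine ((hSD _).2.2).trans ?_
    have : nrm (typ c n a) ≤ N := (hM I (List E) _ a).trans ha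
    have h' : (nrm (typ c n a) : ℚ) ≤ N := by exact_mod_cast this
    exact pow_le_pow_left₀ (Nat.cast_nonneg _) h' 2
  -- the truncated form
  have hKM : Bil (KM c M) a b = - ∑ n ∈ Finset.range M, (1 / 2 : ℚ) ^ (n + 1) * q (n + 1) := by
    have e1 : Bil (KM c M) a b = Bil (fun x y => D (List E) (pre 0 (c x)) (pre 0 (c y))) a b -
        ∑ n ∈ Finset.range M, (1 / 2 : ℚ) ^ (n + 1) * Bil (fun x y => D (List E) (pre (n + 1) (c x)) (pre (n + 1) (c y))) a b := by
      unfold KM
      rw [Bil_sub, Bil_sum]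
      congr 1
      refine Finset.sum_congr rfl fun n _ => ?_
      rw [Bil_mul]
    rw [e1]
    have e2 : ∀ n, n ≤ M → Bil (fun x y => D (List E) (pre n (c x)) (pre n (c y))) a b = q n := by
      intro n hn
      rw [hT I (List E) (fun i => pre n (c i)) (D (List E)) a b]
      simp only [hq]
      have := hty n hn
      unfold typ at this ⊢
      rw [← this]
    rw [e2 0 (Nat.zero_le _), hq0 0 (Nat.zero_le _), zero_sub]
    congr 1
    refine Finset.sum_congr rfl fun n hn => ?_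
    rw [e2 (n + 1) (Finset.mem_range.1 hn)]
  have hlow : (1 / 2 : ℚ) ^ j ≤ ∑ n ∈ Finset.range M, (1 / 2 : ℚ) ^ (n + 1) * q (n + 1) := by
    obtain ⟨i, rfl⟩ : ∃ i, j = i + 1 := ⟨j - 1, by omega⟩
    have : (1 / 2 : ℚ) ^ (i + 1) * q (i + 1) ≤ ∑ n ∈ Finset.range M, (1 / 2 : ℚ) ^ (n + 1) * q (n + 1) :=
      Finset.single_le_sum (f := fun n => (1 / 2 : ℚ) ^ (n + 1) * q (n + 1))
        (fun n _ => mul_nonneg (by positivity) (hqn _)) (Finset.mem_range.2 (by omega))
    refine le_trans ?_ this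
    have h0 : (0 : ℚ) < (1 / 2 : ℚ) ^ (i + 1) := by positivity
    nlinarith
  have hup : ∑ n ∈ Finset.range M, (1 / 2 : ℚ) ^ (n + 1) * q (n + 1) ≤ (N : ℚ) ^ 2 * (1 / 2 : ℚ) ^ L := by
    have e1 : ∑ n ∈ Finset.range M, (1 / 2 : ℚ) ^ (n + 1) * q (n + 1) ≤
        ∑ n ∈ Finset.range M, (N : ℚ) ^ 2 * (if L ≤ n then (1 / 2 : ℚ) ^ (n + 1) else 0) := by
      refine Finset.sum_le_sum fun n _ => ?_
      by_cases h : L ≤ n
      · rw [if_pos h, mul_comm]
        exact mul_le_mul_of_nonneg_right (hqN _) (by positivity)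
      · rw [if_neg h, hq0 (n + 1) (by omega)]
        simp
    refine e1.trans ?_
    rw [← Finset.mul_sum, sum_tail]
    refine mul_le_mul_of_nonneg_left ?_ (by positivity)
    have : (0 : ℚ) < (1 / 2 : ℚ) ^ (max L M) := by positivity
    linarith
  -- the error
  have herr : |Bil (K c) a b - Bil (KM c M) a b| < (1 / 2 : ℚ) ^ j := by
    rw [← Bil_sub]
    have e1 : |Bil (fun x y => K c x y - KM c M x y) a b| ≤ (1 / 2 : ℚ) ^ M * (nrm a : ℚ) * (nrm b : ℚ) := by
      refine hB I _ a b _ (by positivity) ?_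
      intro x hx y hy
      have hxy : c x ≠ c y := fun h => hab x hx y hy (hc h)
      rw [KM_eq c M x y hxy]
      unfold K
      rcases le_total (PiNat.firstDiff (c x) (c y)) M with h | h
      · rw [min_eq_left h, sub_self, abs_zero]
        positivity
      · rw [min_eq_right h]
        have h4 : (1 / 2 : ℚ) ^ (PiNat.firstDiff (c x) (c y)) ≤ (1 / 2 : ℚ) ^ M :=
          pow_le_pow_of_le_one (by norm_num) (by norm_num) h
        have h5 : (0 : ℚ) < (1 / 2 : ℚ) ^ (PiNat.firstDiff (c x) (c y)) := by positivity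
        rw [abs_le]
        constructor <;> linarith [(by positivity : (0 : ℚ) < (1 / 2 : ℚ) ^ M)]
    refine e1.trans_lt ?_
    have h6 : (nrm a : ℚ) ≤ N := by exact_mod_cast ha
    have h7 : (nrm b : ℚ) ≤ N := by exact_mod_cast hb
    have h8 : (1 / 2 : ℚ) ^ M * (nrm a : ℚ) * (nrm b : ℚ) ≤ (1 / 2 : ℚ) ^ M * (N : ℚ) ^ 2 := by
      rw [mul_assoc, sq]
      refine mul_le_mul_of_nonneg_left ?_ (by positivity)
      exact mul_le_mul h6 h7 (Nat.cast_nonneg _) (Nat.cast_nonneg _)
    refine h8.trans_lt ?_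
    have h9 : (N : ℚ) ^ 2 * 2 ^ j < 2 ^ M := by exact_mod_cast hN2
    rw [one_div, inv_pow, inv_pow]
    have p1 : (0 : ℚ) < 2 ^ M := by positivity
    have p2 : (0 : ℚ) < 2 ^ j := by positivity
    rw [inv_mul_eq_div, div_lt_iff₀ p1, inv_mul_eq_div, lt_div_iff₀ p2]
    exact h9
  have hj : (1 / 2 : ℚ) ^ j ≤ 1 / 2 := by
    have : (1 / 2 : ℚ) ^ j ≤ (1 / 2 : ℚ) ^ 1 := pow_le_pow_of_le_one (by norm_num) (by norm_num) (by omega)
    simpa using this
  have hNL : (N : ℚ) ^ 2 * (1 / 2 : ℚ) ^ L < 1 / 2 := by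
    have h9 : 2 * (N : ℚ) ^ 2 < 2 ^ L := by exact_mod_cast hN1
    have p1 : (0 : ℚ) < 2 ^ L := by positivity
    rw [one_div, inv_pow, ← div_eq_mul_inv, div_lt_iff₀ p1]
    linarith
  have h10 := abs_lt.1 herr
  rw [hKM] at h10
  constructor
  · linarith [h10.1]
  · linarith [h10.2]

end Pool.Agent.K1H80.EO

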